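import Pool.Agent.Helpers.JamesMain

namespace Pool.Agent.Results.MP_8db9c5_an.NontrivialIsometry

open Pool.Agent.Helpers.James

/-- There is a reflexive space with a normalized unconditional basis whose Jamesification has an
isometry different from plus or minus the identity. -/
theorem result : ∃ (X : Type) (_ : NormedAddCommGroup X) (_ : NormedSpace ℝ X)
    (_ : CompleteSpace X) (x : ℕ → X),
    IsReflexiveSpace X ∧ IsUnconditionalBasis x ∧ (∀ i, ‖x i‖ = 1) ∧
    (∀ a, BddAbove (jamesSet x a)) ∧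
    (∃ (J : Type) (_ : NormedAddCommGroup J) (_ : NormedSpace ℝ J)
      (ι : (ℕ →₀ ℝ) →ₗ[ℝ] J), IsJamesification x J ι) ∧
    ∀ (J : Type) [NormedAddCommGroup J] [NormedSpace ℝ J] (ι : (ℕ →₀ ℝ) →ₗ[ℝ] J),
      IsJamesification x J ι →
        ∃ T : J ≃ₗᵢ[ℝ] J, (∃ z, T z ≠ z) ∧ (∃ z, T z ≠ -z) :=
  main_result

end Pool.Agent.Results.MP_8db9c5_an.NontrivialIsometry
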